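import Mathlib

open scoped Matrix

namespace Pool.Agent.Lib.MP_204515_an

section Elem

variable {A : Type*} [CStarAlgebra A] [PartialOrder A] [StarOrderedRing A]

/-- a finite sum of `y_k^* y_k` that vanishes has all terms zero. -/
lemma eq_zero_of_sum_eq_zero {κ : Type*} [Fintype κ] (y : κ → A)
    (h : ∑ k, star (y k) * y k = 0) (k : κ) : y k = 0 := by
  have h1 : ∀ k ∈ Finset.univ, 0 ≤ star (y k) * y k := fun k _ => star_mul_self_nonneg _
  have h2 := (Finset.sum_eq_zero_iff_of_nonneg h1).1 h k (Finset.mem_univ _)
  exact (CStarRing.star_mul_self_eq_zero_iff _).1 h2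

lemma norm_le_one_of_star_mul_le_one {y : A} (h : star y * y ≤ 1) : ‖y‖ ≤ 1 := by
  have h1 : ‖star y * y‖ ≤ 1 :=
    (CStarAlgebra.norm_le_one_iff_of_nonneg _ (star_mul_self_nonneg y)).2 h
  rw [CStarRing.norm_star_mul_self] at h1
  nlinarith [norm_nonneg y]

lemma mul_star_le_one_of_norm_le_one {y : A} (h : ‖y‖ ≤ 1) : y * star y ≤ 1 := by
  refine (CStarAlgebra.norm_le_one_iff_of_nonneg _ (mul_star_self_nonneg y)).1 ?_
  rw [CStarRing.norm_self_mul_star]
  nlinarith [norm_nonneg y]

lemma star_mul_le_one_of_norm_le_one {y : A} (h : ‖y‖ ≤ 1) : star y * y ≤ 1 := by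
  have := mul_star_le_one_of_norm_le_one (y := star y) (by rwa [norm_star])
  simpa using this

/-- `PosPair a b m`: the matrix `[a, b*; b, m]` is a Gram matrix. -/
def PosPair (a b m : A) : Prop :=
  ∃ (n : ℕ) (u w : Fin n → A), a = ∑ k, star (u k) * u k ∧ b = ∑ k, star (w k) * u k ∧
    m = ∑ k, star (w k) * w k

/-- The completion property of the path on three vertices. -/
def P3 (A : Type*) [CStarAlgebra A] [PartialOrder A] [StarOrderedRing A] : Prop :=
  ∀ a b m d e : A, PosPair a b m → PosPair m d e →
    ∃ (n : ℕ) (u w v : Fin n → A), (∑ k, star (u k) * u k = a) ∧ (∑ k, star (w k) * u k = b) ∧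
      (∑ k, star (w k) * w k = m) ∧ (∑ k, star (v k) * w k = d) ∧ (∑ k, star (v k) * v k = e)

/-- Left factorisation. -/
lemma fact1 (hP : P3 A) {a b s : A} (hs : 0 ≤ s) (h : PosPair a b (s * s)) :
    ∃ x : A, s * x = b ∧ star x * x ≤ a := by
  have hss : star s = s := (IsSelfAdjoint.of_nonneg hs).star_eq
  have h2 : PosPair (s * s) s 1 := by
    refine ⟨1, fun _ => s, fun _ => 1, ?_, ?_, ?_⟩ <;> simp [hss]
  obtain ⟨n, u, w, v, h1, h2, h3, h4, h5⟩ := hP a b (s * s) s 1 h h2
  have hw : ∀ k, w k - v k * s = 0 := by
    refine eq_zero_of_sum_eq_zero (fun k => w k - v k * s) ?_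
    have e4 : ∑ k, star (w k) * v k = s := by
      have := congrArg star h4
      simpa [star_sum, hss] using this
    have : ∀ k, star (w k - v k * s) * (w k - v k * s) =
        star (w k) * w k - star (w k) * v k * s - s * (star (v k) * w k)
          + s * (star (v k) * v k) * s := by
      intro k
      rw [star_sub, star_mul, hss]
      noncomm_ring
    simp_rw [this]
    rw [Finset.sum_add_distrib, Finset.sum_sub_distrib, Finset.sum_sub_distrib, h3,
      ← Finset.sum_mul, e4, ← Finset.mul_sum, h4, ← Finset.sum_mul, ← Finset.mul_sum, h5]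
    noncomm_ring
  have hw' : ∀ k, w k = v k * s := fun k => sub_eq_zero.1 (hw k)
  refine ⟨∑ k, star (v k) * u k, ?_, ?_⟩
  · rw [← h2, Finset.mul_sum]
    refine Finset.sum_congr rfl fun k _ => ?_
    rw [hw' k, star_mul, hss, mul_assoc]
  · set x := ∑ k, star (v k) * u k with hx
    have hx' : ∑ k, star (u k) * v k = star x := by
      rw [hx, star_sum]
      refine Finset.sum_congr rfl fun k _ => ?_
      rw [star_mul, star_star]
    rw [← sub_nonneg]
    have key : a - star x * x = ∑ k, star (u k - v k * x) * (u k - v k * x) := by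
      have : ∀ k, star (u k - v k * x) * (u k - v k * x) =
          star (u k) * u k - star (u k) * v k * x - star x * (star (v k) * u k)
            + star x * (star (v k) * v k) * x := by
        intro k
        rw [star_sub, star_mul]
        noncomm_ring
      simp_rw [this]
      rw [Finset.sum_add_distrib, Finset.sum_sub_distrib, Finset.sum_sub_distrib, h1,
        ← Finset.sum_mul, hx', ← Finset.mul_sum, ← hx, ← Finset.sum_mul, ← Finset.mul_sum, h5]
      noncomm_ring
    rw [key]
    exact Finset.sum_nonneg fun k _ => star_mul_self_nonneg _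

/-- Separation of orthogonal positive elements. -/
lemma separate (hP : P3 A) {x y : A} (hx : 0 ≤ x) (hy : 0 ≤ y) (hxy : x * y = 0) :
    ∃ f : A, IsSelfAdjoint f ∧ ‖f‖ ≤ 1 ∧ f * x = x ∧ f * y = 0 := by
  have hxs : star x = x := (IsSelfAdjoint.of_nonneg hx).star_eq
  have hys : star y = y := (IsSelfAdjoint.of_nonneg hy).star_eq
  have hyx : y * x = 0 := by
    have := congrArg star hxy
    simpa [hxs, hys] using this
  have hs : 0 ≤ x + y := add_nonneg hx hy
  have e1 : (x + y) * (x + y) = x * x + y * y := by
    rw [add_mul, mul_add, mul_add, hxy, hyx]; abel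
  have e2 : (x - y) * (x - y) = x * x + y * y := by
    rw [sub_mul, mul_sub, mul_sub, hxy, hyx]; abel
  have hp : PosPair 1 (x - y) ((x + y) * (x + y)) := by
    refine ⟨1, fun _ => 1, fun _ => x - y, ?_, ?_, ?_⟩
    · simp
    · simp [hxs, hys]
    · simp only [Finset.univ_unique, Finset.sum_singleton, star_sub, hxs, hys]
      rw [e1, e2]
  obtain ⟨z, hz1, hz2⟩ := fact1 hP hs hp
  have hzn : ‖z‖ ≤ 1 := norm_le_one_of_star_mul_le_one hz2
  have hx2 : x * x * z = x * x := by
    have := congrArg (fun t => x * t) hz1
    simp only [← mul_assoc, mul_add, hxy, add_zero, mul_sub, sub_zero] at this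
    exact this
  have hy2 : y * y * z = - (y * y) := by
    have := congrArg (fun t => y * t) hz1
    simp only [← mul_assoc, mul_add, hyx, zero_add, mul_sub, zero_sub] at this
    exact this
  have hxz : x * z = x := by
    have h0 : star (x * (z - 1)) * (x * (z - 1)) = 0 := by
      rw [star_mul, hxs]
      have : star (z - 1) * x * (x * (z - 1)) = star (z - 1) * (x * x * z - x * x) := by
        noncomm_ring
      rw [this, hx2, sub_self, mul_zero]
    have := (CStarRing.star_mul_self_eq_zero_iff _).1 h0
    rw [mul_sub, mul_one, sub_eq_zero] at this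
    exact this
  have hyz : y * z = - y := by
    have h0 : star (y * (z + 1)) * (y * (z + 1)) = 0 := by
      rw [star_mul, hys]
      have : star (z + 1) * y * (y * (z + 1)) = star (z + 1) * (y * y * z + y * y) := by
        noncomm_ring
      rw [this, hy2, neg_add_cancel, mul_zero]
    have := (CStarRing.star_mul_self_eq_zero_iff _).1 h0
    rw [mul_add, mul_one] at this
    exact eq_neg_of_add_eq_zero_left this
  have hzx : z * x = x := by
    have h0 : star (z * x - x) * (z * x - x) ≤ 0 := by
      have e : star (z * x - x) * (z * x - x) =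
          star x * (star z * z) * x - star x * 1 * x := by
        have a1 : x * z * x = x * x := by rw [hxz]
        have a2 : x * star z * x = x * x := by
          have := congrArg star a1
          simpa [hxs, mul_assoc] using this
        rw [star_sub, star_mul, hxs]
        calc (x * star z - x) * (z * x - x) =
            x * (star z * z) * x - x * star z * x - x * z * x + x * x := by noncomm_ring
          _ = x * (star z * z) * x - x * x := by rw [a1, a2]; abel
          _ = _ := by rw [mul_one]
      rw [e, sub_nonpos]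
      exact star_left_conjugate_le_conjugate hz2 x
    have h1 := le_antisymm h0 (star_mul_self_nonneg _)
    have := (CStarRing.star_mul_self_eq_zero_iff _).1 h1
    rwa [sub_eq_zero] at this
  have hzy : z * y = - y := by
    have h0 : star (z * y + y) * (z * y + y) ≤ 0 := by
      have e : star (z * y + y) * (z * y + y) =
          star y * (star z * z) * y - star y * 1 * y := by
        have a1 : y * z * y = - (y * y) := by rw [hyz]; noncomm_ring
        have a2 : y * star z * y = - (y * y) := by
          have := congrArg star a1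
          simpa [hys, mul_assoc] using this
        rw [star_add, star_mul, hys]
        calc (y * star z + y) * (z * y + y) =
            y * (star z * z) * y + y * star z * y + y * z * y + y * y := by noncomm_ring
          _ = y * (star z * z) * y - y * y := by rw [a1, a2]; abel
          _ = _ := by rw [mul_one]
      rw [e, sub_nonpos]
      exact star_left_conjugate_le_conjugate hz2 y
    have h1 := le_antisymm h0 (star_mul_self_nonneg _)
    have := (CStarRing.star_mul_self_eq_zero_iff _).1 h1
    exact eq_neg_of_add_eq_zero_left this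
  have hzx' : star z * x = x := by
    have := congrArg star hxz
    simpa [hxs] using this
  have hzy' : star z * y = - y := by
    have := congrArg star hyz
    simpa [hys] using this
  refine ⟨(4⁻¹ : ℝ) • (z + star z) + (2⁻¹ : ℝ) • (1 : A), ?_, ?_, ?_, ?_⟩
  · rw [IsSelfAdjoint]
    simp [star_add, star_smul, add_comm]
  · calc ‖(4⁻¹ : ℝ) • (z + star z) + (2⁻¹ : ℝ) • (1 : A)‖
        ≤ ‖(4⁻¹ : ℝ) • (z + star z)‖ + ‖(2⁻¹ : ℝ) • (1 : A)‖ := norm_add_le _ _
      _ ≤ 4⁻¹ * (‖z‖ + ‖star z‖) + 2⁻¹ * 1 := by
          rw [norm_smul, norm_smul]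
          have h1 : ‖(1 : A)‖ ≤ 1 := by
            rcases subsingleton_or_nontrivial A with h | h
            · have : (1 : A) = 0 := Subsingleton.elim _ _
              rw [this, norm_zero]; exact zero_le_one
            · rw [CStarRing.norm_one]
          have h2 := norm_add_le z (star z)
          have e1 : ‖(4⁻¹ : ℝ)‖ = 4⁻¹ := by norm_num
          have e2 : ‖(2⁻¹ : ℝ)‖ = 2⁻¹ := by norm_num
          rw [e1, e2]
          gcongr
      _ ≤ 1 := by rw [norm_star]; linarith
  · rw [add_mul, smul_mul_assoc, smul_mul_assoc, one_mul, add_mul, hzx, hzx', ← two_smul ℝ x,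
      smul_smul, ← add_smul]
    norm_num
  · rw [add_mul, smul_mul_assoc, smul_mul_assoc, one_mul, add_mul, hzy, hzy',
      ← neg_add, ← two_smul ℝ y, smul_neg, smul_smul, ← neg_smul, ← add_smul]
    norm_num

/-- countable separation -/
lemma separate_countable (hP : P3 A) {κ : Type*} [Countable κ] {s : A} (hs : 0 ≤ s)
    (δ : κ → A) (hδ : ∀ k, s * δ k = 0) :
    ∃ f : A, IsSelfAdjoint f ∧ ‖f‖ ≤ 1 ∧ f * s = s ∧ ∀ k, f * δ k = 0 := by
  have := Encodable.ofCountable κ
  obtain ⟨ε, hε, c, hc, -⟩ := posSumOfEncodable (one_pos : (0:ℝ) < 1) κ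
  set W : κ → ℝ := fun k => ε k / (1 + ‖δ k‖ ^ 2) with hW
  have hW0 : ∀ k, 0 < W k := fun k => div_pos (hε k) (by positivity)
  have hsum : Summable fun k => W k • (δ k * star (δ k)) := by
    refine Summable.of_norm_bounded hc.summable fun k => ?_
    rw [norm_smul, CStarRing.norm_self_mul_star, Real.norm_of_nonneg (hW0 k).le, hW]
    simp only
    rw [div_mul_eq_mul_div, div_le_iff₀ (by positivity)]
    have := (hε k).le
    nlinarith [norm_nonneg (δ k)]
  have hnn : ∀ k, 0 ≤ W k • (δ k * star (δ k)) := fun k =>
    smul_nonneg (hW0 k).le (mul_star_self_nonneg _)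
  set y : A := ∑' k, W k • (δ k * star (δ k)) with hy
  have hy0 : 0 ≤ y := tsum_nonneg hnn
  have hyk : ∀ k, W k • (δ k * star (δ k)) ≤ y := fun k => hsum.le_tsum k fun j _ => hnn j
  have hsy : s * y = 0 := by
    rw [hy, ← hsum.tsum_mul_left]
    convert tsum_zero with k
    rw [mul_smul_comm, ← mul_assoc, hδ k, zero_mul, smul_zero]
  obtain ⟨f, hf, hfn, hfs, hfy⟩ := separate hP hs hy0 hsy
  refine ⟨f, hf, hfn, hfs, fun k => ?_⟩
  have h1 : W k • (star (star (δ k) * f) * (star (δ k) * f)) ≤ 0 := by
    have := star_left_conjugate_le_conjugate (hyk k) f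
    rw [hf.star_eq, hfy, zero_mul] at this
    convert this using 1
    rw [star_mul, star_star, hf.star_eq, mul_smul_comm, smul_mul_assoc]
    simp only [mul_assoc]
  have h2 : 0 ≤ W k • (star (star (δ k) * f) * (star (δ k) * f)) :=
    smul_nonneg (hW0 k).le (star_mul_self_nonneg _)
  have h3 := le_antisymm h1 h2
  rw [smul_eq_zero] at h3
  rcases h3 with h3 | h3
  · exact absurd h3 (hW0 k).ne'
  · have := (CStarRing.star_mul_self_eq_zero_iff _).1 h3
    have := congrArg star this
    simpa [hf.star_eq] using this

end Elem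

end Pool.Agent.Lib.MP_204515_an
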