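import Mathlib

namespace Pool.Agent.Lib.MP_204515_an

section Graph

variable {V : Type*} [DecidableEq V]

/-- connected finite sets, built by adding neighbours -/
inductive Conn (Γ : SimpleGraph V) : Finset V → Prop
  | single (v : V) : Conn Γ {v}
  | insert {C : Finset V} {u c : V} (hC : Conn Γ C) (hc : c ∈ C) (h : Γ.Adj u c) :
      Conn Γ (insert u C)

/-- Absence of the obstruction. -/
def NoObs (Γ : SimpleGraph V) : Prop :=
  ∀ C : Finset V, Conn Γ C → ∀ v s t : V, v ∉ C → (∀ c ∈ C, ¬ Γ.Adj v c) → Γ.Adj v s → Γ.Adj v t →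
    (∃ c ∈ C, Γ.Adj s c) → (∃ c ∈ C, Γ.Adj t c) → s ≠ t → Γ.Adj s t

/-- Every nonempty finite set of vertices has a simplicial vertex. -/
def Elim (Γ : SimpleGraph V) : Prop :=
  ∀ D : Finset V, D.Nonempty → ∃ d ∈ D, ∀ x ∈ D, ∀ y ∈ D, Γ.Adj d x → Γ.Adj d y → x ≠ y → Γ.Adj x y

lemma elim_of_noObs {Γ : SimpleGraph V} (h : NoObs Γ) : Elim Γ := by
  classical
  intro D
  induction D using Finset.strongInductionOn with
  | _ D ih =>
    intro hD
    by_cases hcl : ∀ x ∈ D, ∀ y ∈ D, x ≠ y → Γ.Adj x y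
    · obtain ⟨d, hd⟩ := hD
      exact ⟨d, hd, fun x hx y hy _ _ hxy => hcl x hx y hy hxy⟩
    push Not at hcl
    obtain ⟨x0, hx0, y0, hy0, hne, hnadj⟩ := hcl
    -- pairs (v, C)
    set P : Finset (V × Finset V) := (D ×ˢ D.powerset).filter (fun p =>
      Conn Γ p.2 ∧ p.1 ∉ p.2 ∧ ∀ c ∈ p.2, ¬ Γ.Adj p.1 c) with hP
    have hPne : P.Nonempty := by
      refine ⟨(x0, {y0}), ?_⟩
      simp only [hP, Finset.mem_filter, Finset.mem_product, Finset.mem_powerset,
        Finset.singleton_subset_iff, Finset.mem_singleton, forall_eq]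
      exact ⟨⟨hx0, hy0⟩, Conn.single _, hne, hnadj⟩
    obtain ⟨⟨v, C⟩, hvC, hmax⟩ := Finset.exists_max_image P (fun p => p.2.card) hPne
    simp only [hP, Finset.mem_filter, Finset.mem_product, Finset.mem_powerset] at hvC
    obtain ⟨⟨hvD, hCD⟩, hconn, hvnC, hvadj⟩ := hvC
    have hCne : C.Nonempty := by
      cases hconn with
      | single v => exact ⟨v, Finset.mem_singleton_self _⟩
      | insert _ _ _ => exact ⟨_, Finset.mem_insert_self _ _⟩
    -- `N(C)`
    set NC : Finset V := D.filter (fun u => u ∉ C ∧ ∃ c ∈ C, Γ.Adj u c) with hNC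
    have key : ∀ y ∈ D, y ∉ C → (∀ c ∈ C, ¬ Γ.Adj y c) → ∀ u ∈ NC, Γ.Adj y u := by
      intro y hy hyC hyadj u hu
      simp only [hNC, Finset.mem_filter] at hu
      obtain ⟨huD, huC, c, hc, hucadj⟩ := hu
      by_contra hyu
      have hyneu : y ≠ u := by
        rintro rfl
        exact hyadj c hc hucadj
      have hmem : (y, insert u C) ∈ P := by
        simp only [hP, Finset.mem_filter, Finset.mem_product, Finset.mem_powerset]
        refine ⟨⟨hy, Finset.insert_subset huD hCD⟩, Conn.insert hconn hc hucadj, ?_, ?_⟩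
        · simp [hyneu, hyC]
        · intro c' hc'
          rcases Finset.mem_insert.1 hc' with rfl | hc'
          · exact hyu
          · exact hyadj c' hc'
      have := hmax _ hmem
      simp only [Finset.card_insert_of_notMem huC] at this
      omega
    have hNCcl : ∀ s ∈ NC, ∀ t ∈ NC, s ≠ t → Γ.Adj s t := by
      intro s hs t ht hst
      have h1 := key v hvD hvnC hvadj s hs
      have h2 := key v hvD hvnC hvadj t ht
      simp only [hNC, Finset.mem_filter] at hs ht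
      exact h C hconn v s t hvnC hvadj h1 h2 hs.2.2 ht.2.2 hst
    -- the rest
    set D' : Finset V := D.filter (fun y => y ∉ C ∧ ∀ c ∈ C, ¬ Γ.Adj y c) with hD'
    have hvD' : v ∈ D' := Finset.mem_filter.2 ⟨hvD, hvnC, hvadj⟩
    have hss : D' ⊂ D := by
      refine Finset.ssubset_iff_subset_ne.2 ⟨Finset.filter_subset _ _, ?_⟩
      intro heq
      obtain ⟨c, hc⟩ := hCne
      have : c ∈ D' := heq ▸ hCD hc
      simp [hD', hc] at this
    obtain ⟨d, hdD', hd⟩ := ih D' hss ⟨v, hvD'⟩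
    have hd2 := hdD'
    simp only [hD', Finset.mem_filter] at hd2
    refine ⟨d, hd2.1, ?_⟩
    have cases : ∀ x ∈ D, Γ.Adj d x → x ∈ D' ∨ x ∈ NC := by
      intro x hx hdx
      have hxC : x ∉ C := fun hxC => hd2.2.2 x hxC hdx
      by_cases hx2 : ∃ c ∈ C, Γ.Adj x c
      · right; simp only [hNC, Finset.mem_filter]; exact ⟨hx, hxC, hx2⟩
      · left; push Not at hx2; simp only [hD', Finset.mem_filter]; exact ⟨hx, hxC, hx2⟩
    have cross : ∀ x ∈ D', ∀ y ∈ NC, Γ.Adj x y := by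
      intro x hx y hy
      simp only [hD', Finset.mem_filter] at hx
      exact key x hx.1 hx.2.1 hx.2.2 y hy
    intro x hx y hy hdx hdy hxy
    rcases cases x hx hdx with h1 | h1 <;> rcases cases y hy hdy with h2 | h2
    · exact hd x h1 y h2 hdx hdy hxy
    · exact cross x h1 y h2
    · exact (cross y h2 x h1).symm
    · exact hNCcl x h1 y h2 hxy

/-- The blow-up of a graph: each vertex is replaced by a clique indexed by `W`. -/
def blowUp (Γ : SimpleGraph V) (W : Type*) : SimpleGraph (V × W) where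
  Adj a b := a ≠ b ∧ (a.1 = b.1 ∨ Γ.Adj a.1 b.1)
  symm := ⟨fun _ _ h => ⟨h.1.symm, h.2.imp Eq.symm fun h' => h'.symm⟩⟩
  loopless := ⟨fun _ h => h.1 rfl⟩

lemma elim_blowUp {Γ : SimpleGraph V} (h : Elim Γ) (W : Type*) [DecidableEq W] :
    Elim (blowUp Γ W) := by
  intro D hD
  obtain ⟨d, hd, hd2⟩ := h (D.image Prod.fst) (hD.image _)
  obtain ⟨⟨d', p⟩, hdp, rfl⟩ := Finset.mem_image.1 hd
  refine ⟨(d', p), hdp, ?_⟩
  rintro ⟨x, q⟩ hx ⟨y, r⟩ hy ⟨-, h1⟩ ⟨-, h2⟩ hne
  refine ⟨hne, ?_⟩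
  simp only at h1 h2 ⊢
  by_cases hxy : x = y
  · exact Or.inl hxy
  · right
    rcases h1 with h1 | h1
    · rcases h2 with h2 | h2
      · exact absurd (h1.symm.trans h2) hxy
      · exact h1 ▸ h2
    · rcases h2 with h2 | h2
      · exact h2 ▸ h1.symm
      · exact hd2 x (Finset.mem_image.2 ⟨_, hx, rfl⟩) y (Finset.mem_image.2 ⟨_, hy, rfl⟩) h1 h2 hxy

end Graph

end Pool.Agent.Lib.MP_204515_an
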