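import Pool.Agent.Lib.MP_204515_an.Kernel
import Pool.Agent.Lib.MP_204515_an.Chordal

open scoped Matrix

namespace Pool.Agent.Lib.MP_204515_an

section Complete

variable {A : Type*} [CStarAlgebra A] [PartialOrder A] [StarOrderedRing A]
variable {V : Type*} [DecidableEq V]

/-- Partially positive kernels on a graph with simplicial eliminations can be completed. -/
lemma complete (hP : P3 A) (Γ : SimpleGraph V) (hE : Elim Γ) (M : V → V → A)
    (hM : ∀ K : Finset V, Γ.IsClique (K : Set V) → PosOn K M) (D : Finset V) :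
    ∃ Y : V → V → A, PosOn D Y ∧ ∀ i ∈ D, ∀ j ∈ D, (i = j ∨ Γ.Adj i j) → Y i j = M i j := by
  classical
  induction D using Finset.strongInductionOn with
  | _ D ih =>
    rcases D.eq_empty_or_nonempty with rfl | hne
    · exact ⟨M, hM ∅ (by simp), by simp⟩
    obtain ⟨d, hd, hds⟩ := hE D hne
    obtain ⟨Y', hY1, hY2⟩ := ih (D.erase d) (Finset.erase_ssubset hd)
    set D' := D.erase d with hD'
    have hdD' : d ∉ D' := Finset.notMem_erase _ _
    set C := D'.filter (fun j => Γ.Adj d j) with hC
    set Y0 : V → V → A := fun i j => if i = d ∨ j = d then M i j else Y' i j with hY0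
    have hY0D : ∀ i ∈ D', ∀ j ∈ D', Y0 i j = Y' i j := by
      intro i hi j hj
      have h1 : i ≠ d := fun h => hdD' (h ▸ hi)
      have h2 : j ≠ d := fun h => hdD' (h ▸ hj)
      simp [hY0, h1, h2]
    have hCsub : C ⊆ D' := Finset.filter_subset _ _
    have hclique : Γ.IsClique ((insert d C : Finset V) : Set V) := by
      intro x hx y hy hxy
      simp only [Finset.coe_insert, Set.mem_insert_iff, Finset.mem_coe] at hx hy
      rcases hx with rfl | hx <;> rcases hy with rfl | hy
      · exact absurd rfl hxy
      · exact (Finset.mem_filter.1 hy).2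
      · exact (Finset.mem_filter.1 hx).2.symm
      · exact hds x (Finset.mem_of_mem_erase (hCsub hx)) y (Finset.mem_of_mem_erase (hCsub hy))
          (Finset.mem_filter.1 hx).2 (Finset.mem_filter.1 hy).2 hxy
    have hstart : PosOn (insert d C) Y0 := by
      refine (hM _ hclique).congr fun i hi j hj => ?_
      by_cases h : i = d ∨ j = d
      · simp [hY0, h]
      · push Not at h
        have hi' := (Finset.mem_insert.1 hi).resolve_left h.1
        have hj' := (Finset.mem_insert.1 hj).resolve_left h.2
        rw [hY0D i (hCsub hi') j (hCsub hj')]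
        refine hY2 i (hCsub hi') j (hCsub hj') ?_
        by_cases hij : i = j
        · exact Or.inl hij
        · exact Or.inr (hclique (by simp [hi']) (by simp [hj']) hij)
    -- extension along `D' \ C`
    have step : ∀ E : Finset V, E ⊆ D' → ∃ Y1 : V → V → A, PosOn D' Y1 ∧
        PosOn (insert d (C ∪ E)) Y1 ∧ (∀ i ∈ D', ∀ j ∈ D', Y1 i j = Y' i j) ∧
        (∀ j ∈ insert d C, Y1 d j = M d j ∧ Y1 j d = M j d) := by
      intro E
      induction E using Finset.induction_on with
      | empty =>
        intro _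
        refine ⟨Y0, hY1.congr hY0D, by simpa using hstart, hY0D, fun j hj => ?_⟩
        simp [hY0]
      | insert e E he ihE =>
        intro hE'
        obtain ⟨Y1, h1, h2, h3, h4⟩ := ihE ((Finset.subset_insert _ _).trans hE')
        have heD' : e ∈ D' := hE' (Finset.mem_insert_self _ _)
        by_cases heC : e ∈ C
        · refine ⟨Y1, h1, h2.mono ?_, h3, h4⟩
          intro x
          simp only [Finset.mem_insert, Finset.mem_union]
          rintro (rfl | h | rfl | h)
          · exact Or.inl rfl
          · exact Or.inr (Or.inl h)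
          · exact Or.inr (Or.inl heC)
          · exact Or.inr (Or.inr h)
        have hed : e ≠ d := fun h => hdD' (h ▸ heD')
        have hEC : e ∉ C ∪ E := by simp [heC, he]
        have hdC : d ∉ C ∪ E := by
          simp only [Finset.mem_union, not_or]
          exact ⟨fun h => hdD' (hCsub h), fun h => hdD' (hE' (Finset.mem_insert_of_mem h))⟩
        have hsub : insert e (C ∪ E) ⊆ D' := by
          intro x
          simp only [Finset.mem_insert, Finset.mem_union]
          rintro (rfl | h | h)
          · exact heD'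
          · exact hCsub h
          · exact hE' (Finset.mem_insert_of_mem h)
        obtain ⟨x, hx⟩ := ext_one hP (C ∪ E) d e Y1 hed.symm hdC hEC h2 (h1.mono hsub)
        have hupd : ∀ i j, i ≠ d → j ≠ d → upd Y1 d e x i j = Y1 i j := by
          intro i j hi hj
          simp [upd, hi, hj]
        refine ⟨upd Y1 d e x, h1.congr fun i hi j hj => hupd i j (fun h => hdD' (h ▸ hi))
            (fun h => hdD' (h ▸ hj)), hx.mono ?_, fun i hi j hj => ?_, fun j hj => ?_⟩
        · intro y
          simp only [Finset.mem_insert, Finset.mem_union]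
          tauto
        · rw [hupd i j (fun h => hdD' (h ▸ hi)) (fun h => hdD' (h ▸ hj))]
          exact h3 i hi j hj
        · have hje : j ≠ e := by
            rintro rfl
            rcases Finset.mem_insert.1 hj with h | h
            · exact hed h
            · exact heC h
          have : upd Y1 d e x d j = Y1 d j ∧ upd Y1 d e x j d = Y1 j d := by
            simp [upd, hje, hed.symm]
          rw [this.1, this.2]
          exact h4 j hj
    obtain ⟨Y1, h1, h2, h3, h4⟩ := step D' (Finset.Subset.refl _)
    refine ⟨Y1, h2.mono ?_, fun i hi j hj hij => ?_⟩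
    · intro x hx
      simp only [Finset.mem_insert, Finset.mem_union]
      by_cases h : x = d
      · exact Or.inl h
      · exact Or.inr (Or.inr (Finset.mem_erase.2 ⟨h, hx⟩))
    · by_cases hid : i = d
      · subst hid
        by_cases hjd : j = i
        · subst hjd; exact (h4 j (Finset.mem_insert_self _ _)).1
        · have hj' : j ∈ C := Finset.mem_filter.2 ⟨Finset.mem_erase.2 ⟨hjd, hj⟩,
            hij.resolve_left fun h => hjd h.symm⟩
          exact (h4 j (Finset.mem_insert_of_mem hj')).1
      · by_cases hjd : j = d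
        · subst hjd
          have hi' : i ∈ C := Finset.mem_filter.2 ⟨Finset.mem_erase.2 ⟨hid, hi⟩,
            (hij.resolve_left hid).symm⟩
          exact (h4 i (Finset.mem_insert_of_mem hi')).2
        · have hi' := Finset.mem_erase.2 ⟨hid, hi⟩
          have hj' := Finset.mem_erase.2 ⟨hjd, hj⟩
          rw [h3 i hi' j hj']
          exact hY2 i hi' j hj' hij

/-- Kernel form of the completion property of a graph. -/
def KG (A : Type*) [CStarAlgebra A] [PartialOrder A] [StarOrderedRing A] [Fintype V]
    (Γ : SimpleGraph V) : Prop :=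
  ∀ M : V → V → A, (∀ K : Finset V, Γ.IsClique (K : Set V) → PosOn K M) →
    ∃ Y : V → V → A, PosOn Finset.univ Y ∧ ∀ i j, (i = j ∨ Γ.Adj i j) → Y i j = M i j

variable [Fintype V]

lemma kg_of_elim (hP : P3 A) {Γ : SimpleGraph V} (hE : Elim Γ) : KG A Γ := by
  intro M hM
  obtain ⟨Y, h1, h2⟩ := complete hP Γ hE M hM Finset.univ
  exact ⟨Y, h1, fun i j h => h2 i (Finset.mem_univ _) j (Finset.mem_univ _) h⟩

omit [PartialOrder A] [StarOrderedRing A] in
lemma star_sub_mul_self_sum {n : ℕ} (a b : Fin n → A) (c : A)
    (h1 : ∑ k, star (a k) * a k = c) (h2 : ∑ k, star (b k) * b k = c)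
    (h3 : ∑ k, star (a k) * b k = c) (h4 : ∑ k, star (b k) * a k = c) :
    ∑ k, star (a k - b k) * (a k - b k) = 0 := by
  have : ∀ k, star (a k - b k) * (a k - b k) =
      star (a k) * a k - star (a k) * b k - star (b k) * a k + star (b k) * b k := by
    intro k; rw [star_sub]; noncomm_ring
  simp_rw [this]
  rw [Finset.sum_add_distrib, Finset.sum_sub_distrib, Finset.sum_sub_distrib, h1, h2, h3, h4]
  abel

/-- The obstruction. -/
lemma noObs_of_kg [Nontrivial A] {Γ : SimpleGraph V} (h : KG A Γ) : NoObs Γ := by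
  classical
  intro C hconn v s t hvC hvadj hvs hvt hs ht hst
  by_contra hnst
  set X : Finset V := insert v (insert s (insert t C)) with hX
  set M : V → V → A := fun i j => if i ∈ X ∧ j ∈ X then
    (if (i = v ∧ j = s) ∨ (i = s ∧ j = v) then -1 else 1) else 0 with hMdef
  have hvs' : v ≠ s := hvs.ne
  have hvt' : v ≠ t := hvt.ne
  have hM : ∀ K : Finset V, Γ.IsClique (K : Set V) → PosOn K M := by
    intro K hK
    by_cases hvK : v ∈ K ∧ s ∈ K
    · refine (posOn_rank_one K (fun i => if i = v then (1 : A) else if i = s then -1 else 0)).congr ?_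
      have hKX : ∀ i ∈ K, i ∈ X → i = v ∨ i = s := by
        intro i hi hiX
        simp only [hX, Finset.mem_insert] at hiX
        rcases hiX with rfl | rfl | rfl | hiC
        · exact Or.inl rfl
        · exact Or.inr rfl
        · exact absurd (hK hvK.2 hi hst) hnst
        · have hvi : v ≠ i := fun h' => hvC (h' ▸ hiC)
          exact absurd (hK hvK.1 hi hvi) (hvadj i hiC)
      have hvX : v ∈ X := by simp [hX]
      have hsX : s ∈ X := by simp [hX]
      intro i hi j hj
      by_cases hiX : i ∈ X
      · by_cases hjX : j ∈ X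
        · rcases hKX i hi hiX with rfl | rfl <;> rcases hKX j hj hjX with rfl | rfl
          · simp [hMdef, hvX, hvs']
          · simp [hMdef, hvX, hsX, hvs'.symm]
          · simp [hMdef, hvX, hsX, hvs'.symm]
          · simp [hMdef, hsX, hvs'.symm]
        · have h1 : j ≠ v := fun h' => hjX (h' ▸ hvX)
          have h2 : j ≠ s := fun h' => hjX (h' ▸ hsX)
          simp [hMdef, hjX, h1, h2]
      · have h1 : i ≠ v := fun h' => hiX (h' ▸ hvX)
        have h2 : i ≠ s := fun h' => hiX (h' ▸ hsX)
        simp [hMdef, hiX, h1, h2]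
    · refine (posOn_rank_one K (fun i => if i ∈ X then (1 : A) else 0)).congr ?_
      intro i hi j hj
      have hne : ¬ ((i = v ∧ j = s) ∨ (i = s ∧ j = v)) := by
        rintro (⟨rfl, rfl⟩ | ⟨rfl, rfl⟩)
        · exact hvK ⟨hi, hj⟩
        · exact hvK ⟨hj, hi⟩
      by_cases hiX : i ∈ X <;> by_cases hjX : j ∈ X <;> simp [hMdef, hiX, hjX, hne]
  obtain ⟨Y, ⟨n, T, hT⟩, hY⟩ := h M hM
  have hT' : ∀ i j, (i = j ∨ Γ.Adj i j) → ∑ k, star (T k i) * T k j = M i j := fun i j hij => by
    rw [← hT i (Finset.mem_univ _) j (Finset.mem_univ _), hY i j hij]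
  have hone : ∀ i j, i ∈ X → j ∈ X → ¬ ((i = v ∧ j = s) ∨ (i = s ∧ j = v)) → M i j = 1 := by
    intro i j hi hj hne
    simp [hMdef, hi, hj, hne]
  have heq : ∀ i j, i ∈ X → j ∈ X → Γ.Adj i j → ¬ ((i = v ∧ j = s) ∨ (i = s ∧ j = v)) →
      ∀ k, T k i = T k j := by
    intro i j hi hj hij hne k
    have hne' : ¬ ((j = v ∧ i = s) ∨ (j = s ∧ i = v)) := by tauto
    have hself : ∀ i, ¬ ((i = v ∧ i = s) ∨ (i = s ∧ i = v)) := by
      rintro i (⟨h1, h2⟩ | ⟨h1, h2⟩)
      · exact hvs' (h1 ▸ h2)
      · exact hvs' (h2 ▸ h1)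
    have := eq_zero_of_sum_eq_zero (fun k => T k i - T k j) (star_sub_mul_self_sum _ _ 1
      ((hT' i i (Or.inl rfl)).trans (hone i i hi hi (hself i)))
      ((hT' j j (Or.inl rfl)).trans (hone j j hj hj (hself j)))
      ((hT' i j (Or.inr hij)).trans (hone i j hi hj hne))
      ((hT' j i (Or.inr hij.symm)).trans (hone j i hj hi hne'))) k
    exact sub_eq_zero.1 this
  have hvX : v ∈ X := by simp [hX]
  have hsX : s ∈ X := by simp [hX]
  have htX : t ∈ X := by simp [hX]
  have hCX : C ⊆ X := fun x hx => by simp [hX, hx]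
  have hCT : ∀ C' : Finset V, Conn Γ C' → C' ⊆ C → ∀ c ∈ C', ∀ c' ∈ C', ∀ k, T k c = T k c' := by
    intro C' hC'
    induction hC' with
    | single v => intro _ c hc c' hc' k; rw [Finset.mem_singleton.1 hc, Finset.mem_singleton.1 hc']
    | @insert C' u c0 hC' hc0 hadj ih =>
      intro hsub
      have huC : u ∈ C := hsub (Finset.mem_insert_self _ _)
      have hc0C : c0 ∈ C := hsub (Finset.mem_insert_of_mem hc0)
      have ih' := ih ((Finset.subset_insert _ _).trans hsub)
      have hu : ∀ k, T k u = T k c0 := heq u c0 (hCX huC) (hCX hc0C) hadj (by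
        rintro (⟨rfl, -⟩ | ⟨-, rfl⟩)
        · exact hvC huC
        · exact hvC hc0C)
      have hall : ∀ c ∈ insert u C', ∀ k, T k c = T k c0 := by
        intro c hc k
        rcases Finset.mem_insert.1 hc with rfl | hc
        · exact hu k
        · exact ih' c hc c0 hc0 k
      intro c hc c' hc' k
      rw [hall c hc, hall c' hc']
  obtain ⟨c, hcC, hsc⟩ := hs
  obtain ⟨c', hc'C, htc⟩ := ht
  have e1 : ∀ k, T k s = T k c := heq s c hsX (hCX hcC) hsc (by
    rintro (⟨h1, -⟩ | ⟨-, h1⟩)
    · exact hvs' h1.symm
    · exact hvC (h1 ▸ hcC))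
  have e2 : ∀ k, T k t = T k c' := heq t c' htX (hCX hc'C) htc (by
    rintro (⟨h1, -⟩ | ⟨-, h1⟩)
    · exact hvt' h1.symm
    · exact hvC (h1 ▸ hc'C))
  have e3 : ∀ k, T k v = T k t := heq v t hvX htX hvt (by
    rintro (⟨-, h1⟩ | ⟨-, h1⟩)
    · exact hst h1.symm
    · exact hvt' h1.symm)
  have e4 : ∀ k, T k v = T k s := fun k => by
    rw [e3, e2, e1]
    exact hCT C hconn (Finset.Subset.refl _) c' hc'C c hcC k
  have e5 : M s s = 1 := hone s s hsX hsX (by
    rintro (⟨h1, -⟩ | ⟨-, h1⟩)
    · exact hvs' h1.symm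
    · exact hvs' h1.symm)
  have e6 : M v s = -1 := by simp [hMdef, hvX, hsX]
  have e7 := hT' v s (Or.inr hvs)
  have e8 := hT' s s (Or.inl rfl)
  rw [e6] at e7
  rw [e5] at e8
  simp_rw [e4] at e7
  rw [e7] at e8
  have h2 : (2 : ℂ) • (1 : A) = 0 := by
    rw [two_smul]
    nth_rewrite 1 [← e8]
    exact neg_add_cancel 1
  rw [smul_eq_zero] at h2
  rcases h2 with h2 | h2
  · norm_num at h2
  · exact one_ne_zero h2

/-- An induced path with three vertices gives the property `P3`. -/
lemma p3_of_kg {Γ : SimpleGraph V} (h : KG A Γ) {i j k : V} (hij : Γ.Adj i j) (hjk : Γ.Adj j k)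
    (hik : i ≠ k) (hnik : ¬ Γ.Adj i k) : P3 A := by
  classical
  rintro a b m d e ⟨n, u, w, h1, h2, h3⟩ ⟨n', u', w', h1', h2', h3'⟩
  have hji : j ≠ i := hij.ne'
  have hkj : k ≠ j := hjk.ne'
  have hki : k ≠ i := hik.symm
  set M : V → V → A := fun x y =>
    if x = i ∧ y = i then a else if x = j ∧ y = i then b else if x = i ∧ y = j then star b else
    if x = j ∧ y = j then m else if x = k ∧ y = j then d else if x = j ∧ y = k then star d else
    if x = k ∧ y = k then e else 0 with hMdef
  have hb : ∑ l, star (u l) * w l = star b := by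
    rw [h2, star_sum]; exact Finset.sum_congr rfl fun l _ => by rw [star_mul, star_star]
  have hd : ∑ l, star (u' l) * w' l = star d := by
    rw [h2', star_sum]; exact Finset.sum_congr rfl fun l _ => by rw [star_mul, star_star]
  have hM : ∀ K : Finset V, Γ.IsClique (K : Set V) → PosOn K M := by
    intro K hK
    by_cases hkK : k ∈ K
    · have hiK : i ∉ K := fun hiK => hnik (hK hiK hkK hik)
      refine ⟨n', fun l x => if x = j then u' l else if x = k then w' l else 0, ?_⟩
      intro x hx y hy
      have hxi : x ≠ i := fun h' => hiK (h' ▸ hx)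
      have hyi : y ≠ i := fun h' => hiK (h' ▸ hy)
      by_cases hxj : x = j
      · subst hxj
        by_cases hyj : y = x
        · subst hyj
          simp [hMdef, hxi, h1']
        · by_cases hyk : y = k
          · subst hyk
            simp [hMdef, hxi, hkj, hkj.symm, hki, hd]
          · simp [hMdef, hxi, hyi, hyj, hyk]
      · by_cases hxk : x = k
        · subst hxk
          by_cases hyj : y = j
          · subst hyj
            simp [hMdef, hxi, hyi, hkj, h2']
          · by_cases hyk : y = x
            · subst hyk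
              simp [hMdef, hxi, hkj, h3']
            · simp [hMdef, hyi, hyj, hyk, hkj, hxi]
        · simp [hMdef, hxi, hxj, hxk]
    · refine ⟨n, fun l x => if x = i then u l else if x = j then w l else 0, ?_⟩
      intro x hx y hy
      have hxk : x ≠ k := fun h' => hkK (h' ▸ hx)
      have hyk : y ≠ k := fun h' => hkK (h' ▸ hy)
      by_cases hxi : x = i
      · subst hxi
        by_cases hyi : y = x
        · subst hyi
          simp [hMdef, h1]
        · by_cases hyj : y = j
          · subst hyj
            simp [hMdef, hji, hji.symm, hb]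
          · simp [hMdef, hyi, hyj, hji.symm, hxk]
      · by_cases hxj : x = j
        · subst hxj
          by_cases hyi : y = i
          · subst hyi
            simp [hMdef, hxi, h2]
          · by_cases hyj : y = x
            · subst hyj
              simp [hMdef, hxi, h3]
            · simp [hMdef, hyi, hyj, hyk, hxi]
        · simp [hMdef, hxi, hxj, hxk]
  obtain ⟨Y, ⟨N, T, hT⟩, hY⟩ := h M hM
  have hT' : ∀ x y, (x = y ∨ Γ.Adj x y) → ∑ l, star (T l x) * T l y = M x y := fun x y hxy => by
    rw [← hT x (Finset.mem_univ _) y (Finset.mem_univ _), hY x y hxy]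
  refine ⟨N, fun l => T l i, fun l => T l j, fun l => T l k, ?_, ?_, ?_, ?_, ?_⟩
  · rw [hT' i i (Or.inl rfl)]; simp [hMdef]
  · rw [hT' j i (Or.inr hij.symm)]; simp [hMdef, hji]
  · rw [hT' j j (Or.inl rfl)]; simp [hMdef, hji]
  · rw [hT' k j (Or.inr hjk.symm)]; simp [hMdef, hkj, hji, hki]
  · rw [hT' k k (Or.inl rfl)]; simp [hMdef, hkj, hki]

/-- cluster graphs are always completable. -/
lemma kg_of_cluster {Γ : SimpleGraph V}
    (hc : ∀ i j k, Γ.Adj i j → Γ.Adj j k → i ≠ k → Γ.Adj i k) : KG A Γ := by
  classical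
  intro M hM
  set cls : V → Finset V := fun i => Finset.univ.filter (fun j => i = j ∨ Γ.Adj i j) with hcls
  have hmem : ∀ i j, j ∈ cls i ↔ (i = j ∨ Γ.Adj i j) := fun i j => by simp [hcls]
  have hcl : ∀ i, Γ.IsClique (cls i : Set V) := by
    intro i x hx y hy hxy
    rw [Finset.mem_coe, hmem] at hx hy
    rcases hx with rfl | hx
    · exact hy.resolve_left hxy
    · rcases hy with rfl | hy
      · exact hx.symm
      · exact hc x i y hx.symm hy hxy
  have hclseq : ∀ i j, cls i = cls j ↔ (i = j ∨ Γ.Adj i j) := by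
    intro i j
    constructor
    · intro h
      rw [← hmem, h, hmem]
      exact Or.inl rfl
    · rintro (rfl | hij)
      · rfl
      · ext x
        rw [hmem, hmem]
        constructor
        · rintro (rfl | hx)
          · exact Or.inr hij.symm
          · by_cases hjx : j = x
            · exact Or.inl hjx
            · exact Or.inr (hc j i x hij.symm hx hjx)
        · rintro (rfl | hx)
          · exact Or.inr hij
          · by_cases hix : i = x
            · exact Or.inl hix
            · exact Or.inr (hc i j x hij hx hix)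
  have hex : ∀ K : Finset V, ∃ (n : ℕ) (T : Fin n → V → A), Γ.IsClique (K : Set V) →
      ∀ i ∈ K, ∀ j ∈ K, M i j = ∑ k, star (T k i) * T k j := by
    intro K
    by_cases hK : Γ.IsClique (K : Set V)
    · obtain ⟨n, T, hT⟩ := hM K hK
      exact ⟨n, T, fun _ => hT⟩
    · exact ⟨0, fun _ _ => 0, fun h => absurd h hK⟩
  choose nn TT hTT using hex
  refine ⟨fun i j => if i = j ∨ Γ.Adj i j then M i j else 0,
    posOn_of_fintype (κ := Σ K : Finset V, Fin (nn K))
      (fun p i => if p.1 = cls i then TT p.1 p.2 i else 0) ?_, fun i j hij => by simp [hij]⟩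
  intro i _ j _
  rw [Fintype.sum_sigma]
  rw [Finset.sum_eq_single (cls i)]
  · simp only [if_true]
    by_cases hij : i = j ∨ Γ.Adj i j
    · have h1 := (hclseq i j).2 hij
      rw [if_pos hij]
      simp only [h1, if_true]
      exact hTT (cls i) (hcl i) i ((hmem i i).2 (Or.inl rfl)) j ((hmem i j).2 hij)
    · have h1 : cls i ≠ cls j := fun h => hij ((hclseq i j).1 h)
      simp [hij, h1]
  · intro K _ hK
    simp [hK]
  · simp

end Complete

end Pool.Agent.Lib.MP_204515_an
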