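import Pool.Agent.Lib.MP_204515_an.Row

open scoped Matrix

namespace Pool.Agent.Lib.MP_204515_an

section Kernel

variable {A : Type*} [CStarAlgebra A] [PartialOrder A] [StarOrderedRing A]
variable {V : Type*}

/-- The kernel `M` is a Gram kernel on the set `K`. -/
def PosOn (K : Finset V) (M : V → V → A) : Prop :=
  ∃ (n : ℕ) (T : Fin n → V → A), ∀ i ∈ K, ∀ j ∈ K, M i j = ∑ k, star (T k i) * T k j

omit [PartialOrder A] [StarOrderedRing A] in
lemma posOn_of_fintype {κ : Type*} [Fintype κ] {K : Finset V} {M : V → V → A} (T : κ → V → A)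
    (h : ∀ i ∈ K, ∀ j ∈ K, M i j = ∑ k, star (T k i) * T k j) : PosOn K M := by
  obtain ⟨e⟩ : Nonempty (Fin (Fintype.card κ) ≃ κ) := ⟨(Fintype.equivFin κ).symm⟩
  refine ⟨Fintype.card κ, fun k => T (e k), fun i hi j hj => ?_⟩
  rw [h i hi j hj, ← e.sum_comp]

omit [PartialOrder A] [StarOrderedRing A] in
lemma PosOn.mono {K K' : Finset V} {M : V → V → A} (h : PosOn K M) (hK : K' ⊆ K) : PosOn K' M := by
  obtain ⟨n, T, hT⟩ := h
  exact ⟨n, T, fun i hi j hj => hT i (hK hi) j (hK hj)⟩

omit [PartialOrder A] [StarOrderedRing A] in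
lemma PosOn.congr {K : Finset V} {M M' : V → V → A} (h : PosOn K M)
    (hM : ∀ i ∈ K, ∀ j ∈ K, M' i j = M i j) : PosOn K M' := by
  obtain ⟨n, T, hT⟩ := h
  exact ⟨n, T, fun i hi j hj => by rw [hM i hi j hj, hT i hi j hj]⟩

omit [PartialOrder A] [StarOrderedRing A] in
lemma PosOn.add {K : Finset V} {M M' : V → V → A} (h : PosOn K M) (h' : PosOn K M') :
    PosOn K (fun i j => M i j + M' i j) := by
  obtain ⟨n, T, hT⟩ := h
  obtain ⟨n', T', hT'⟩ := h'
  refine posOn_of_fintype (κ := Fin n ⊕ Fin n') (Sum.elim T T') fun i hi j hj => ?_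
  rw [Fintype.sum_sum_type, hT i hi j hj, hT' i hi j hj]
  rfl

omit [PartialOrder A] [StarOrderedRing A] in
lemma posOn_rank_one (K : Finset V) (x : V → A) : PosOn K (fun i j => star (x i) * x j) :=
  posOn_of_fintype (κ := Unit) (fun _ => x) fun i _ j _ => by simp

omit [PartialOrder A] [StarOrderedRing A] in
lemma PosOn.star_eq {K : Finset V} {M : V → V → A} (h : PosOn K M) {i j : V} (hi : i ∈ K)
    (hj : j ∈ K) : star (M i j) = M j i := by
  obtain ⟨n, T, hT⟩ := h
  rw [hT i hi j hj, hT j hj i hi, star_sum]
  refine Finset.sum_congr rfl fun k _ => ?_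
  rw [star_mul, star_star]

lemma PosOn.nonneg {K : Finset V} {M : V → V → A} (h : PosOn K M) {i : V} (hi : i ∈ K) :
    0 ≤ M i i := by
  obtain ⟨n, T, hT⟩ := h
  rw [hT i hi i hi]
  exact Finset.sum_nonneg fun k _ => star_mul_self_nonneg _

/-- The Schur-type reduction at a vertex `v`. -/
lemma reduce (hP : P3 A) [DecidableEq V] {K : Finset V} {v : V} {M : V → V → A}
    (h : PosOn (insert v K) M) {s : A} (hs : 0 ≤ s) (hm : M v v = s * s) :
    ∃ Ξ : V → A, (∀ j ∈ K, s * Ξ j = M v j) ∧
      PosOn K (fun i j => M i j - star (Ξ i) * Ξ j) := by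
  obtain ⟨n, T, hT⟩ := h
  set U : Matrix (Fin n) K A := Matrix.of fun k j => T k j with hU
  set w : Matrix (Fin n) Unit A := Matrix.of fun k _ => T k v with hw
  have h1 : wᴴ * w = sc (s * s) := by
    ext i j
    rw [Matrix.mul_apply]
    simp only [hw, sc, Matrix.of_apply, Matrix.conjTranspose_apply]
    rw [← hm, hT v (Finset.mem_insert_self _ _) v (Finset.mem_insert_self _ _)]
  obtain ⟨Ξ, hΞ1, P, hP⟩ := row_fact hP U w hs h1
  have hUU : ∀ i j : K, (Uᴴ * U) i j = M i j := by
    intro i j
    rw [Matrix.mul_apply, hT i (Finset.mem_insert_of_mem i.2) j (Finset.mem_insert_of_mem j.2)]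
    rfl
  have hwU : ∀ j : K, (wᴴ * U) () j = M v j := by
    intro j
    rw [Matrix.mul_apply, hT v (Finset.mem_insert_self _ _) j (Finset.mem_insert_of_mem j.2)]
    rfl
  refine ⟨fun j => if hj : j ∈ K then Ξ ⟨j, hj⟩ else 0, fun j hj => ?_, ?_⟩
  · simp only [hj, dif_pos]
    rw [hΞ1, hwU]
  · refine posOn_of_fintype (κ := K) (fun k j => if hj : j ∈ K then P k ⟨j, hj⟩ else 0)
      fun i hi j hj => ?_
    simp only [hi, hj, dif_pos]
    have := congrFun (congrFun hP ⟨i, hi⟩) ⟨j, hj⟩
    rw [Matrix.of_apply, hUU, Matrix.mul_apply] at this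
    rw [this]
    rfl

/-- change the two entries `(v, w)` and `(w, v)` -/
def upd [DecidableEq V] (M : V → V → A) (v w : V) (x : A) : V → V → A := fun i j =>
  if i = v ∧ j = w then x else if i = w ∧ j = v then star x else M i j

/-- One missing entry can be completed. -/
lemma ext_one (hP : P3 A) [DecidableEq V] : ∀ (S : Finset V) (v w : V) (M : V → V → A), v ≠ w →
    v ∉ S → w ∉ S → PosOn (insert v S) M → PosOn (insert w S) M →
    ∃ x : A, PosOn (insert v (insert w S)) (upd M v w x) := by
  intro S
  induction S using Finset.induction_on with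
  | empty =>
    intro v w M hvw _ _ h1 h2
    obtain ⟨n, T, hT⟩ := h1
    obtain ⟨n', T', hT'⟩ := h2
    refine ⟨0, posOn_of_fintype (κ := Fin n ⊕ Fin n')
      (Sum.elim (fun k i => if i = v then T k i else 0) (fun k i => if i = w then T' k i else 0))
      fun i hi j hj => ?_⟩
    rw [Fintype.sum_sum_type]
    simp only [Sum.elim_inl, Sum.elim_inr, upd]
    simp only [Finset.mem_insert, Finset.notMem_empty, or_false] at hi hj
    have hwv : w ≠ v := hvw.symm
    rcases hi with rfl | rfl <;> rcases hj with rfl | rfl
    · simp [hvw, hT _ (Finset.mem_insert_self _ _) _ (Finset.mem_insert_self _ _)]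
    · simp [hvw, hwv]
    · simp [hvw, hwv]
    · simp [hwv, hT' _ (Finset.mem_insert_self _ _) _ (Finset.mem_insert_self _ _)]
  | insert a S ha ih =>
    intro v w M hvw hv hw h1 h2
    have hva : v ≠ a := fun h => hv (h ▸ Finset.mem_insert_self _ _)
    have hwa : w ≠ a := fun h => hw (h ▸ Finset.mem_insert_self _ _)
    have hvS : v ∉ S := fun h => hv (Finset.mem_insert_of_mem h)
    have hwS : w ∉ S := fun h => hw (Finset.mem_insert_of_mem h)
    have hm0 : 0 ≤ M a a := h1.nonneg (by simp)
    set s : A := CFC.sqrt (M a a) with hs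
    have hs0 : 0 ≤ s := CFC.sqrt_nonneg _
    have hss : star s = s := (IsSelfAdjoint.of_nonneg hs0).star_eq
    have hm : M a a = s * s := (CFC.sqrt_mul_sqrt_self _ hm0).symm
    have h1' : PosOn (insert a (insert v S)) M := h1.mono (by
      intro x; simp only [Finset.mem_insert]; tauto)
    have h2' : PosOn (insert a (insert w S)) M := h2.mono (by
      intro x; simp only [Finset.mem_insert]; tauto)
    obtain ⟨X, hX1, hX2⟩ := reduce hP h1' hs0 hm
    obtain ⟨Y, hY1, hY2⟩ := reduce hP h2' hs0 hm
    obtain ⟨f, hf, hfn, hfs, hfd⟩ := separate_countable hP hs0 (fun j : S => X j - Y j)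
      (fun j => by
        rw [mul_sub, hX1 j (Finset.mem_insert_of_mem j.2), hY1 j (Finset.mem_insert_of_mem j.2),
          sub_self])
    have hsf : s * f = s := by
      have := congrArg star hfs
      rwa [star_mul, hss, hf.star_eq] at this
    obtain ⟨g, hg⟩ := (gen_nonneg_iff _).1 (sub_nonneg.2 (star_mul_le_one_of_norm_le_one hfn))
    -- the common row
    set Z : V → A := fun j => if j = w then f * Y j else f * X j with hZ
    have hZX : ∀ j ∈ insert v S, Z j = f * X j := by
      intro j hj
      have : j ≠ w := by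
        rintro rfl
        rcases Finset.mem_insert.1 hj with h | h
        · exact hvw h.symm
        · exact hwS h
      simp [hZ, this]
    have hZY : ∀ j ∈ insert w S, Z j = f * Y j := by
      intro j hj
      rcases Finset.mem_insert.1 hj with rfl | h
      · simp [hZ]
      · have hjw : j ≠ w := fun h' => hwS (h' ▸ h)
        simp only [hZ, hjw, if_false]
        have := hfd ⟨j, h⟩
        rw [mul_sub, sub_eq_zero] at this
        exact this
    have red : ∀ (K : Finset V) (X : V → A), (∀ j ∈ K, Z j = f * X j) →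
        PosOn K (fun i j => M i j - star (X i) * X j) →
        PosOn K (fun i j => M i j - star (Z i) * Z j) := by
      intro K X hX h
      refine (h.add (posOn_rank_one K fun i => g * X i)).congr fun i hi j hj => ?_
      rw [hX i hi, hX j hj]
      have e : star (g * X i) * (g * X j) = star (X i) * (star g * g) * X j := by
        rw [star_mul]; noncomm_ring
      rw [e, ← hg, star_mul]
      noncomm_ring
    have h3 := red _ X hZX hX2
    have h4 := red _ Y hZY hY2
    obtain ⟨x', n, T, hT⟩ := ih v w (fun i j => M i j - star (Z i) * Z j) hvw hvS hwS h3 h4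
    have hsZ : ∀ j ∈ insert v (insert w S), s * Z j = M a j := by
      intro j hj
      rcases Finset.mem_insert.1 hj with rfl | hj
      · rw [hZX _ (Finset.mem_insert_self _ _), ← mul_assoc, hsf, hX1 _ (Finset.mem_insert_self _ _)]
      · rw [hZY _ hj, ← mul_assoc, hsf, hY1 _ hj]
    refine ⟨x' + star (Z v) * Z w, posOn_of_fintype (κ := Option (Fin n))
      (fun k => k.elim (fun i => if i = a then s else Z i) (fun k i => if i = a then 0 else T k i))
      fun i hi j hj => ?_⟩
    rw [Fintype.sum_option]
    simp only [Option.elim]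
    have hi' : i = a ∨ i ∈ insert v (insert w S) := by
      simp only [Finset.mem_insert] at hi ⊢; tauto
    have hj' : j = a ∨ j ∈ insert v (insert w S) := by
      simp only [Finset.mem_insert] at hj ⊢; tauto
    have hane : ∀ i ∈ insert v (insert w S), i ≠ a := by
      intro i hi
      simp only [Finset.mem_insert] at hi
      rcases hi with rfl | rfl | hi
      · exact hva
      · exact hwa
      · exact fun h => ha (h ▸ hi)
    by_cases hia : i = a
    · subst hia
      by_cases hja : j = i
      · subst hja
        simp [upd, hva.symm, hwa.symm, hm, hss]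
      · have hj'' := hj'.resolve_left hja
        simp [upd, hva.symm, hwa.symm, hja, hss, hsZ j hj'']
    · have hi'' := hi'.resolve_left hia
      by_cases hja : j = a
      · subst hja
        have e : star (Z i) * s = M i j := by
          have h5 := congrArg star (hsZ i hi'')
          rw [star_mul, hss] at h5
          rw [h5]
          simp only [Finset.mem_insert] at hi''
          rcases hi'' with rfl | rfl | hi''
          · exact h1.star_eq (by simp) (by simp)
          · exact h2.star_eq (by simp) (by simp)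
          · exact h1.star_eq (by simp) (by simp [hi''])
        simp [upd, hva.symm, hwa.symm, hia, e]
      · have hj'' := hj'.resolve_left hja
        have := hT i hi'' j hj''
        simp only [hia, hja, if_false]
        rw [← this]
        simp only [upd]
        split_ifs with c1 c2
        · rw [c1.1, c1.2]; abel
        · rw [c2.1, c2.2, star_add, star_mul, star_star]; abel
        · abel

end Kernel

end Pool.Agent.Lib.MP_204515_an
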