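import Pool.Agent.Lib.MP_204515_an.Basic

open scoped Matrix

namespace Pool.Agent.Lib.MP_204515_an

section Gen

variable {B : Type*}

lemma gen_nonneg_iff [NonUnitalCStarAlgebra B] [PartialOrder B] [StarOrderedRing B] (b : B) :
    0 ≤ b ↔ ∃ c : B, b = star c * c := CStarAlgebra.nonneg_iff_eq_star_mul_self

variable [CStarAlgebra B] [PartialOrder B] [StarOrderedRing B]

lemma gen_smul_one_nonneg {ε : ℝ} (hε : 0 ≤ ε) : 0 ≤ ((ε : ℂ) • 1 : B) := by
  have : ((ε : ℂ) • 1 : B) = ε • 1 := by simp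
  rw [this]
  exact smul_nonneg hε zero_le_one

lemma gen_sqrt_inv {N : B} (hN0 : 0 ≤ N) {ε : ℝ} (hε : 0 < ε) :
    ∃ S R : B, star S = S ∧ star R = R ∧ S * S = N + (ε : ℂ) • 1 ∧ S * R = 1 ∧ R * S = 1 := by
  set N' : B := N + (ε : ℂ) • 1 with hN'
  have h1 : 0 ≤ ((ε : ℂ) • 1 : B) := gen_smul_one_nonneg hε.le
  have hN'0 : 0 ≤ N' := add_nonneg hN0 h1
  have hle : ((ε : ℂ) • 1 : B) ≤ N' := le_add_of_nonneg_left hN0
  have hε' : (ε : ℂ) ≠ 0 := by exact_mod_cast hε.ne'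
  have hu1 : IsUnit ((ε : ℂ) • 1 : B) := by
    refine ⟨⟨(ε : ℂ) • 1, (ε : ℂ)⁻¹ • 1, ?_, ?_⟩, rfl⟩
    · rw [smul_mul_smul_comm, mul_one, mul_inv_cancel₀ hε', one_smul]
    · rw [smul_mul_smul_comm, mul_one, inv_mul_cancel₀ hε', one_smul]
  have hsp : IsStrictlyPositive ((ε : ℂ) • 1 : B) := ⟨h1, hu1⟩
  have hsp' : IsStrictlyPositive N' := hsp.of_le hle
  set S : B := CFC.sqrt N' with hS
  have hSS : S * S = N' := CFC.sqrt_mul_sqrt_self N' hN'0
  have hSsa : star S = S := (IsSelfAdjoint.of_nonneg (CFC.sqrt_nonneg N')).star_eq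
  have hSu : IsUnit S := by
    have : IsUnit (S * S) := by rw [hSS]; exact hsp'.isUnit
    exact (Commute.isUnit_mul_iff (Commute.refl S)).1 this |>.1
  obtain ⟨u, hu⟩ := hSu
  have hu1 : S * (↑u⁻¹ : B) = 1 := by rw [← hu, Units.mul_inv]
  refine ⟨S, (↑u⁻¹ : B), hSsa, ?_, hSS, hu1, by rw [← hu, Units.inv_mul]⟩
  have h2 : star (↑u⁻¹ : B) * S = 1 := by
    have := congrArg star hu1
    rwa [star_mul, hSsa, star_one] at this
  calc star (↑u⁻¹ : B) = star (↑u⁻¹ : B) * (S * ↑u⁻¹) := by rw [hu1, mul_one]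
    _ = ↑u⁻¹ := by rw [← mul_assoc, h2, one_mul]

lemma gen_closed (N : B) (ε : ℕ → ℝ) (hε : Filter.Tendsto ε Filter.atTop (nhds 0))
    (h : ∀ n, 0 ≤ N + (ε n : ℂ) • 1) : 0 ≤ N := by
  have h2 : Filter.Tendsto (fun n => N + (ε n : ℂ) • (1 : B))
      Filter.atTop (nhds (N + ((0:ℝ):ℂ) • 1)) :=
    tendsto_const_nhds.add (((Complex.continuous_ofReal.tendsto 0).comp hε).smul tendsto_const_nhds)
  rw [Complex.ofReal_zero, zero_smul, add_zero] at h2
  exact ge_of_tendsto' h2 h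

end Gen

section Mat

variable {A : Type*} [CStarAlgebra A] [PartialOrder A] [StarOrderedRing A]
variable {ι κ μ : Type*} [Fintype ι] [Fintype κ] [Fintype μ] [DecidableEq ι]

/-- Gram matrices. -/
def MPos (M : Matrix ι ι A) : Prop := ∃ P : Matrix ι ι A, M = Pᴴ * P

omit [DecidableEq ι] in
lemma nonneg_iff (M : Matrix ι ι A) :
    0 ≤ (CStarMatrix.ofMatrix M : CStarMatrix ι ι A) ↔ MPos M := by
  rw [gen_nonneg_iff]
  rfl

lemma mpos_gram (U : Matrix κ ι A) : MPos (Uᴴ * U) := by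
  rcases isEmpty_or_nonempty ι with h | ⟨⟨i0⟩⟩
  · exact ⟨0, Matrix.ext fun i => h.elim i⟩
  rw [← nonneg_iff]
  have : (CStarMatrix.ofMatrix (Uᴴ * U) : CStarMatrix ι ι A) =
      ∑ k : κ, star (CStarMatrix.ofMatrix (Matrix.of fun i j => if i = i0 then U k j else 0) :
        CStarMatrix ι ι A) *
        (CStarMatrix.ofMatrix (Matrix.of fun i j => if i = i0 then U k j else 0)) := by
    refine CStarMatrix.ext fun i j => ?_
    rw [CStarMatrix.ofMatrix_apply, Matrix.mul_apply]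
    have : ∀ (s : Finset κ) (F : κ → CStarMatrix ι ι A), (∑ k ∈ s, F k) i j = ∑ k ∈ s, F k i j := by
      intro s F
      classical
      induction s using Finset.induction_on with
      | empty => simp
      | insert a s ha ih => rw [Finset.sum_insert ha, Finset.sum_insert ha, CStarMatrix.add_apply, ih]
    rw [this]
    refine Finset.sum_congr rfl fun k _ => ?_
    rw [CStarMatrix.mul_apply]
    simp only [CStarMatrix.star_apply, CStarMatrix.ofMatrix_apply, Matrix.of_apply,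
      Matrix.conjTranspose_apply]
    rw [Finset.sum_eq_single i0]
    · simp
    · intro b _ hb; simp [hb]
    · simp
  rw [this]
  exact Finset.sum_nonneg fun k _ => star_mul_self_nonneg _

lemma MPos.add {M M' : Matrix ι ι A} (h : MPos M) (h' : MPos M') : MPos (M + M') := by
  obtain ⟨P, rfl⟩ := h
  obtain ⟨P', rfl⟩ := h'
  have := mpos_gram (Matrix.fromRows P P')
  rwa [Matrix.conjTranspose_fromRows_eq_fromCols_conjTranspose, Matrix.fromCols_mul_fromRows] at this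

omit [DecidableEq ι] in
lemma MPos.conj {M : Matrix ι ι A} (h : MPos M) (X : Matrix ι μ A) [DecidableEq μ] :
    MPos (Xᴴ * M * X) := by
  obtain ⟨P, rfl⟩ := h
  have := mpos_gram (P * X)
  rwa [Matrix.conjTranspose_mul, Matrix.mul_assoc, ← Matrix.mul_assoc Pᴴ, ← Matrix.mul_assoc] at this

/-- `1 - X X^* ≥ 0` implies `1 - X^* X ≥ 0`. -/
lemma mpos_one_sub_swap [DecidableEq κ] (X : Matrix κ ι A) (h : MPos (1 - X * Xᴴ)) :
    MPos (1 - Xᴴ * X) := by
  have h1 := (mpos_gram (1 - Xᴴ * X)).add (h.conj X)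
  convert h1 using 1
  rw [Matrix.conjTranspose_sub, Matrix.conjTranspose_one, Matrix.conjTranspose_mul,
    Matrix.conjTranspose_conjTranspose]
  simp only [Matrix.mul_sub, Matrix.sub_mul, Matrix.mul_one, Matrix.one_mul, Matrix.mul_assoc]
  abel

/-- positive invertible square roots. -/
lemma exists_sqrt_inv (M : Matrix ι ι A) (hM : MPos M) {ε : ℝ} (hε : 0 < ε) :
    ∃ S R : Matrix ι ι A, Sᴴ = S ∧ Rᴴ = R ∧ S * S = M + (ε : ℂ) • 1 ∧ S * R = 1 ∧ R * S = 1 := by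
  obtain ⟨S, R, h⟩ := gen_sqrt_inv (B := CStarMatrix ι ι A) ((nonneg_iff M).2 hM) hε
  exact ⟨S, R, h⟩

/-- closedness of the positive cone. -/
lemma mpos_of_forall (M : Matrix ι ι A) (ε : ℕ → ℝ) (hε : Filter.Tendsto ε Filter.atTop (nhds 0))
    (h : ∀ n, MPos (M + (ε n : ℂ) • 1)) : MPos M := by
  rw [← nonneg_iff]
  exact gen_closed (B := CStarMatrix ι ι A) _ ε hε fun n => (nonneg_iff _).2 (h n)

end Mat

end Pool.Agent.Lib.MP_204515_an
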