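import Pool.Agent.Lib.MP_204515_an.Mat

open scoped Matrix

namespace Pool.Agent.Lib.MP_204515_an

section Row

variable {A : Type*} [CStarAlgebra A] [PartialOrder A] [StarOrderedRing A]
variable {ι κ μ : Type*} [Fintype ι] [Fintype κ] [Fintype μ] [DecidableEq ι]

/-- `1 × 1` matrices. -/
def sc (a : A) : Matrix Unit Unit A := Matrix.of fun _ _ => a

omit [PartialOrder A] [StarOrderedRing A] in
lemma sc_mul (a b : A) : sc a * sc b = sc (a * b) := by
  ext i j; simp [sc, Matrix.mul_apply]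

omit [PartialOrder A] [StarOrderedRing A] in
lemma sc_add (a b : A) : sc a + sc b = sc (a + b) := by
  ext i j; simp [sc]

omit [PartialOrder A] [StarOrderedRing A] in
lemma sc_sub (a b : A) : sc a - sc b = sc (a - b) := by
  ext i j; simp [sc]

omit [PartialOrder A] [StarOrderedRing A] in
lemma sc_star (a : A) : (sc a)ᴴ = sc (star a) := by
  ext i j; simp [sc]

omit [PartialOrder A] [StarOrderedRing A] in
lemma sc_one : sc (1 : A) = 1 := by
  ext i j; simp [sc]

omit [CStarAlgebra A] [PartialOrder A] [StarOrderedRing A] in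
lemma eq_sc (M : Matrix Unit Unit A) : M = sc (M () ()) := by
  ext i j; simp [sc]

lemma nonneg_of_gram (g : Matrix κ Unit A) {a : A} (h : gᴴ * g = sc a) : 0 ≤ a := by
  have : a = ∑ k, star (g k ()) * g k () := by
    have := congrFun (congrFun h ()) ()
    simpa [sc, Matrix.mul_apply] using this.symm
  rw [this]
  exact Finset.sum_nonneg fun k _ => star_mul_self_nonneg _

lemma approx (hP : P3 A) (U : Matrix κ ι A) (w : Matrix κ Unit A) {s : A} (hs : 0 ≤ s)
    (hw : wᴴ * w = sc (s * s)) (Ξ : Matrix Unit ι A) (hΞ : sc s * Ξ = wᴴ * U)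
    {ε : ℝ} (hε : 0 < ε) :
    ∃ f : A, IsSelfAdjoint f ∧ ‖f‖ ≤ 1 ∧ f * s = s ∧
      MPos (Uᴴ * U + (ε : ℂ) • 1 - Ξᴴ * sc (f * f) * Ξ) := by
  have hss : star s = s := (IsSelfAdjoint.of_nonneg hs).star_eq
  obtain ⟨S, R, hS, hR, hSS, hSR, hRS⟩ := exists_sqrt_inv (Uᴴ * U) (mpos_gram U) hε
  obtain ⟨X, hX⟩ : ∃ X : Matrix Unit ι A, X = Ξ * R := ⟨_, rfl⟩
  have hXS : X * S = Ξ := by rw [hX, Matrix.mul_assoc, hRS, Matrix.mul_one]
  obtain ⟨t, htX⟩ : ∃ t : A, X * Xᴴ = sc t := ⟨_, eq_sc _⟩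
  have ht0 : 0 ≤ t := nonneg_of_gram Xᴴ (by rw [Matrix.conjTranspose_conjTranspose, htX])
  have hts : star t = t := (IsSelfAdjoint.of_nonneg ht0).star_eq
  -- the Schur complement
  obtain ⟨C, hC⟩ : ∃ C : Matrix ι Unit A, C = R * Xᴴ * sc s := ⟨_, rfl⟩
  have hCs : Cᴴ = sc s * X * R := by
    rw [hC, Matrix.conjTranspose_mul, Matrix.conjTranspose_mul, Matrix.conjTranspose_conjTranspose,
      sc_star, hss, hR, ← Matrix.mul_assoc]
  have e1 : sc s * Ξ * C = sc (s * t * s) := by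
    rw [hC, Matrix.mul_assoc, ← Matrix.mul_assoc Ξ, ← Matrix.mul_assoc Ξ, ← hX, htX, sc_mul, sc_mul,
      mul_assoc]
  have e1' : Cᴴ * (Ξᴴ * sc s) = sc (s * t * s) := by
    have := congrArg Matrix.conjTranspose e1
    rw [Matrix.conjTranspose_mul, Matrix.conjTranspose_mul, sc_star, sc_star, hss, star_mul,
      star_mul, hss, hts, ← mul_assoc] at this
    exact this
  have e2 : Cᴴ * (Uᴴ * U + (ε : ℂ) • 1) * C = sc (s * t * s) := by
    rw [← hSS, hCs, hC]
    calc sc s * X * R * (S * S) * (R * Xᴴ * sc s)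
        = sc s * X * (R * S) * (S * R) * Xᴴ * sc s := by simp only [Matrix.mul_assoc]
      _ = sc s * (X * Xᴴ) * sc s := by
          rw [hRS, hSR]; simp only [Matrix.mul_assoc, Matrix.mul_one]
      _ = _ := by rw [htX, sc_mul, sc_mul]
  have hΞ' : Uᴴ * w = Ξᴴ * sc s := by
    have := congrArg Matrix.conjTranspose hΞ
    rw [Matrix.conjTranspose_mul, Matrix.conjTranspose_mul, sc_star, hss,
      Matrix.conjTranspose_conjTranspose] at this
    exact this.symm
  have e3 : (w - U * C)ᴴ * (w - U * C) + (ε : ℂ) • (Cᴴ * C) = sc (s * s - s * t * s) := by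
    have : (w - U * C)ᴴ * (w - U * C) + (ε : ℂ) • (Cᴴ * C) =
        wᴴ * w - (wᴴ * U) * C - Cᴴ * (Uᴴ * w) + Cᴴ * (Uᴴ * U + (ε : ℂ) • 1) * C := by
      rw [Matrix.conjTranspose_sub, Matrix.conjTranspose_mul]
      simp only [Matrix.mul_sub, Matrix.sub_mul, Matrix.mul_add, Matrix.add_mul, Matrix.mul_assoc,
        Matrix.mul_smul, Matrix.smul_mul, Matrix.mul_one]
      abel
    rw [this, hw, ← hΞ, hΞ', e1, e1', e2, sc_sub, sc_sub, sc_add]
    congr 1
    abel
  have hschur : 0 ≤ s * s - s * t * s := by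
    have e4 : sc (s * s - s * t * s) - (ε : ℂ) • (Cᴴ * C) = (w - U * C)ᴴ * (w - U * C) := by
      rw [← e3]; abel
    have h1 : 0 ≤ ((w - U * C)ᴴ * (w - U * C)) () () := nonneg_of_gram (w - U * C) (eq_sc _)
    have h2 : 0 ≤ (Cᴴ * C) () () := nonneg_of_gram C (eq_sc _)
    have h3 : s * s - s * t * s = ((w - U * C)ᴴ * (w - U * C)) () () +
        (ε : ℂ) • ((Cᴴ * C) () ()) := by
      have := congrFun (congrFun e3 ()) ()
      rw [Matrix.add_apply, Matrix.smul_apply] at this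
      rw [this]; rfl
    rw [h3]
    refine add_nonneg h1 ?_
    have : (ε : ℂ) • ((Cᴴ * C) () ()) = ε • ((Cᴴ * C) () ()) := by simp
    rw [this]
    exact smul_nonneg hε.le h2
  -- apply the factorisation with `a = 1`
  set z : A := CFC.sqrt t with hz
  have hz0 : 0 ≤ z := CFC.sqrt_nonneg t
  have hzs : star z = z := (IsSelfAdjoint.of_nonneg hz0).star_eq
  have hzz : z * z = t := CFC.sqrt_mul_sqrt_self t ht0
  obtain ⟨g, hg⟩ := (gen_nonneg_iff _).1 hschur
  have hpair : PosPair 1 (s * z) (s * s) := by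
    refine ⟨2, ![1, 0], ![z * s, g], ?_, ?_, ?_⟩
    · simp
    · simp [hss, hzs]
    · simp only [Fin.sum_univ_two, Matrix.cons_val_zero, Matrix.cons_val_one, star_mul, hss, hzs]
      rw [← hg, ← hzz]
      noncomm_ring
  obtain ⟨y, hy1, hy2⟩ := fact1 hP hs hpair
  have hyn := norm_le_one_of_star_mul_le_one hy2
  obtain ⟨f, hf, hfn, hfs, hfd⟩ := separate_countable hP hs (fun _ : Unit => y - z)
    (fun _ => by rw [mul_sub, hy1, sub_self])
  have hfyz : f * z = f * y := by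
    have := hfd ()
    rw [mul_sub, sub_eq_zero] at this
    exact this.symm
  refine ⟨f, hf, hfn, hfs, ?_⟩
  -- `θ = f X`
  have hθ : MPos (1 - (sc f * X) * (sc f * X)ᴴ) := by
    have e5 : (sc f * X) * (sc f * X)ᴴ = sc ((f * z) * star (f * z)) := by
      rw [Matrix.conjTranspose_mul, sc_star, hf.star_eq, Matrix.mul_assoc, ← Matrix.mul_assoc X, htX,
        sc_mul, sc_mul, star_mul, hzs, hf.star_eq, ← hzz]
      congr 1
      noncomm_ring
    rw [e5, ← sc_one, sc_sub]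
    have h6 : ‖f * z‖ ≤ 1 := by
      rw [hfyz]
      calc ‖f * y‖ ≤ ‖f‖ * ‖y‖ := norm_mul_le _ _
        _ ≤ 1 * 1 := mul_le_mul hfn hyn (norm_nonneg _) zero_le_one
        _ = 1 := one_mul _
    have h7 : 0 ≤ 1 - (f * z) * star (f * z) := sub_nonneg.2 (mul_star_le_one_of_norm_le_one h6)
    obtain ⟨c, hc⟩ := (gen_nonneg_iff _).1 h7
    exact ⟨sc c, by rw [sc_star, sc_mul, hc]⟩
  have h8 := (mpos_one_sub_swap _ hθ).conj S
  convert h8 using 1
  rw [hS, Matrix.mul_sub, Matrix.sub_mul, Matrix.mul_one, hSS, Matrix.conjTranspose_mul, sc_star,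
    hf.star_eq]
  congr 1
  have e9 : Ξᴴ = S * Xᴴ := by
    rw [← hXS, Matrix.conjTranspose_mul, hS]
  rw [e9, ← sc_mul, ← hXS]
  simp only [Matrix.mul_assoc]

/-- Row factorisation. -/
lemma row_fact (hP : P3 A) (U : Matrix κ ι A) (w : Matrix κ Unit A) {s : A} (hs : 0 ≤ s)
    (hw : wᴴ * w = sc (s * s)) :
    ∃ Ξ : ι → A, (∀ j, s * Ξ j = (wᴴ * U) () j) ∧
      MPos (Matrix.of fun i j => (Uᴴ * U) i j - star (Ξ i) * Ξ j) := by
  have hss : star s = s := (IsSelfAdjoint.of_nonneg hs).star_eq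
  -- entrywise factorisation
  have h1 : ∀ j : ι, ∃ x : A, s * x = (wᴴ * U) () j := by
    intro j
    have hp : PosPair ((Uᴴ * U) j j) ((wᴴ * U) () j) (s * s) := by
      obtain ⟨e⟩ : Nonempty (Fin (Fintype.card κ) ≃ κ) := ⟨(Fintype.equivFin κ).symm⟩
      refine ⟨Fintype.card κ, fun k => U (e k) j, fun k => w (e k) (), ?_, ?_, ?_⟩
      · rw [Matrix.mul_apply, ← e.sum_comp]; rfl
      · rw [Matrix.mul_apply, ← e.sum_comp]; rfl
      · have := congrFun (congrFun hw ()) ()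
        rw [Matrix.mul_apply, ← e.sum_comp] at this
        simpa [sc] using this.symm
    obtain ⟨x, hx, -⟩ := fact1 hP hs hp
    exact ⟨x, hx⟩
  choose ξ hξ using h1
  set Ξ0 : Matrix Unit ι A := Matrix.of fun _ j => ξ j with hΞ0
  have hΞ : sc s * Ξ0 = wᴴ * U := by
    ext i j
    rw [Matrix.mul_apply]
    simp [sc, hΞ0, hξ]
  have h2 : ∀ n : ℕ, ∃ f : A, IsSelfAdjoint f ∧ ‖f‖ ≤ 1 ∧ f * s = s ∧
      MPos (Uᴴ * U + ((1 / ((n : ℝ) + 1) : ℝ) : ℂ) • 1 - Ξ0ᴴ * sc (f * f) * Ξ0) := fun n =>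
    approx hP U w hs hw Ξ0 hΞ (by positivity)
  choose F hF hFn hFs hFM using h2
  obtain ⟨f, hf, hfn, hfs, hfd⟩ := separate_countable hP hs (fun n => 1 - F n) (fun n => by
    have := congrArg star (hFs n)
    rw [star_mul, hss, (hF n).star_eq] at this
    rw [mul_sub, mul_one, this, sub_self])
  have hfF : ∀ n, f * F n = f := fun n => by
    have := hfd n
    rw [mul_sub, mul_one, sub_eq_zero] at this
    exact this.symm
  have hFf : ∀ n, F n * f = f := fun n => by
    have := congrArg star (hfF n)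
    rwa [star_mul, hf.star_eq, (hF n).star_eq] at this
  obtain ⟨g, hg⟩ := (gen_nonneg_iff _).1 (sub_nonneg.2 (star_mul_le_one_of_norm_le_one hfn))
  have key : MPos (Uᴴ * U - Ξ0ᴴ * sc (f * f) * Ξ0) := by
    refine mpos_of_forall _ (fun n => 1 / ((n : ℝ) + 1)) tendsto_one_div_add_atTop_nhds_zero_nat
      fun n => ?_
    have h3 := (hFM n).add (mpos_gram (sc (g * F n) * Ξ0))
    convert h3 using 1
    have h4 : F n * F n - f * f = star (g * F n) * (g * F n) := by
      rw [star_mul, (hF n).star_eq]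
      calc F n * F n - f * f = F n * F n - (F n * f) * (f * F n) := by rw [hFf, hfF]
        _ = F n * (1 - star f * f) * F n := by rw [hf.star_eq]; noncomm_ring
        _ = _ := by rw [hg]; noncomm_ring
    have h5 : (sc (g * F n) * Ξ0)ᴴ * (sc (g * F n) * Ξ0) =
        Ξ0ᴴ * sc (F n * F n) * Ξ0 - Ξ0ᴴ * sc (f * f) * Ξ0 := by
      rw [← Matrix.sub_mul, ← Matrix.mul_sub, sc_sub, h4, ← sc_mul (star (g * F n)), ← sc_star,
        Matrix.conjTranspose_mul]
      simp only [Matrix.mul_assoc]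
    rw [h5]
    abel
  refine ⟨fun j => f * ξ j, fun j => ?_, ?_⟩
  · have : s * f = s := by
      have := congrArg star hfs
      rwa [star_mul, hss, hf.star_eq] at this
    rw [← mul_assoc, this, hξ]
  · convert key using 1
    ext i j
    rw [Matrix.sub_apply, Matrix.of_apply, Matrix.mul_apply (M := Ξ0ᴴ * sc (f * f))]
    simp [sc, hΞ0, Matrix.mul_apply, hf.star_eq, mul_assoc]

end Row

end Pool.Agent.Lib.MP_204515_an
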